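import Mathlib

/-!
Sums of `d`-th powers of polynomials with constant term one: reduction modulo a prime dividing
`d + c`.
-/

open Polynomial

namespace Pool.Agent.W350.Shap

/-- the statement in characteristic `p` -/
theorem charp {F : Type} [Field F] (p : ℕ) [hp : Fact p.Prime] [CharP F p] (k d c : ℕ)
    (hc : 0 < c) (hdc : p ∣ d + c) (hk : k < p) (q : Fin k → F[X]) (h0 : ∀ i, (q i).coeff 0 = 1)
    (M : F[X]) (hM : M ≠ 0) (hdvd : ∀ i, q i ∣ M) (hdeg : c * M.natDegree < p)
    (hsum : ∑ i, q i ^ d = (k : F[X])) : ∀ i, q i = 1 := by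
  classical
  choose R hR using hdvd
  have hR0 : ∀ i, R i ≠ 0 := by
    intro i h
    apply hM
    rw [hR i, h, mul_zero]
  have hq0 : ∀ i, q i ≠ 0 := by
    intro i h
    apply hM
    rw [hR i, h, zero_mul]
  have hdegR : ∀ i, (q i).natDegree + (R i).natDegree = M.natDegree := by
    intro i
    rw [hR i, natDegree_mul (hq0 i) (hR0 i)]
  obtain ⟨m, hm⟩ := hdc
  have hX : ∀ i, (X : F[X]) ^ p ∣ q i ^ (d + c) - 1 := by
    intro i
    have h1 : q i ^ (d + c) - 1 = (q i ^ m - 1) ^ p := by
      rw [sub_pow_char, one_pow, ← pow_mul, hm, mul_comm]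
    rw [h1]
    apply pow_dvd_pow_of_dvd
    rw [X_dvd_iff, coeff_sub, coeff_one_zero, coeff_zero_eq_eval_zero, eval_pow,
      ← coeff_zero_eq_eval_zero, h0, one_pow, sub_self]
  have hkey : ∑ i, R i ^ c = (k : F[X]) * M ^ c := by
    rw [← sub_eq_zero]
    have h2 : (X : F[X]) ^ p ∣ ∑ i, R i ^ c - (k : F[X]) * M ^ c := by
      have h3 : ∑ i, R i ^ c - (k : F[X]) * M ^ c =
          - ∑ i, R i ^ c * (q i ^ (d + c) - 1) := by
        rw [← hsum, Finset.sum_mul, ← Finset.sum_sub_distrib, ← Finset.sum_neg_distrib]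
        refine Finset.sum_congr rfl (fun i _ => ?_)
        rw [hR i]
        ring
      rw [h3, dvd_neg]
      exact Finset.dvd_sum (fun i _ => Dvd.dvd.mul_left (hX i) _)
    by_contra hne
    have h4 := natDegree_le_of_dvd h2 hne
    rw [natDegree_X_pow] at h4
    have h5 : (∑ i, R i ^ c - (k : F[X]) * M ^ c).natDegree ≤ c * M.natDegree := by
      refine (natDegree_sub_le _ _).trans (max_le ?_ ?_)
      · refine natDegree_sum_le_of_forall_le _ _ (fun i _ => ?_)
        rw [natDegree_pow]
        exact Nat.mul_le_mul_left _ (by have := hdegR i; omega)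
      · refine (natDegree_mul_le).trans ?_
        rw [natDegree_natCast, zero_add, natDegree_pow]
    omega
  have hcoef := congrArg (fun f => f.coeff (c * M.natDegree)) hkey
  simp only [finsetSum_coeff] at hcoef
  have hM' : (M ^ c).coeff (c * M.natDegree) = M.leadingCoeff ^ c := by
    rw [← leadingCoeff_pow, leadingCoeff, natDegree_pow]
  have hL : M.leadingCoeff ^ c ≠ 0 := pow_ne_zero _ (leadingCoeff_ne_zero.2 hM)
  have hcR : ∀ i, (R i ^ c).coeff (c * M.natDegree) =
      if q i = 1 then M.leadingCoeff ^ c else 0 := by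
    intro i
    split_ifs with h
    · have : R i = M := by rw [hR i, h, one_mul]
      rw [this, hM']
    · apply coeff_eq_zero_of_natDegree_lt
      rw [natDegree_pow]
      apply Nat.mul_lt_mul_of_pos_left _ hc
      have h6 : 0 < (q i).natDegree := by
        by_contra h7
        apply h
        rw [eq_C_of_natDegree_eq_zero (by omega : (q i).natDegree = 0), h0, C_1]
      have := hdegR i
      omega
  rw [Finset.sum_congr rfl (fun i _ => hcR i), ← Finset.sum_filter, Finset.sum_const,
    nsmul_eq_mul] at hcoef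
  have h8 : ((k : F[X]) * M ^ c).coeff (c * M.natDegree) = (k : F) * M.leadingCoeff ^ c := by
    rw [← hM', ← C_eq_natCast, coeff_C_mul]
  rw [h8] at hcoef
  have h9 := mul_right_cancel₀ hL hcoef
  set r := (Finset.univ.filter (fun i => q i = 1)).card with hr
  have hrk : r ≤ k := by
    have := Finset.card_filter_le (Finset.univ : Finset (Fin k)) (fun i => q i = 1)
    rw [Finset.card_univ, Fintype.card_fin] at this
    exact this
  have h10 : r = k := by
    have h11 : ((k - r : ℕ) : F) = 0 := by
      rw [Nat.cast_sub hrk, h9, sub_self]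
    rw [CharP.cast_eq_zero_iff F p] at h11
    by_contra hne
    have := Nat.le_of_dvd (by omega) h11
    omega
  intro i
  have h12 : Finset.univ.filter (fun i => q i = 1) = Finset.univ := by
    apply Finset.eq_univ_of_card
    rw [← hr, h10, Fintype.card_fin]
  have := Finset.mem_univ i
  rw [← h12, Finset.mem_filter] at this
  exact this.2

/-- a place of the complex numbers over `p` -/
theorem exists_over (p : ℕ) (hp : p.Prime) : ∃ V : ValuationSubring ℂ, V.valuation (p : ℂ) < 1 := by
  have h1 : (p : ℂ)⁻¹ ∉ (integralClosure ℤ ℂ).toSubring := by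
    intro h
    have h2 : IsIntegral ℤ ((p : ℂ)⁻¹) := h
    have h5 : IsIntegral ℤ ((p : ℚ)⁻¹) := by
      rw [← isIntegral_algebraMap_iff (algebraMap ℚ ℂ).injective]
      simpa using h2
    obtain ⟨y, hy⟩ := IsIntegrallyClosed.isIntegral_iff.mp h5
    have hp0 : (p : ℚ) ≠ 0 := by exact_mod_cast hp.ne_zero
    have h6 : (y : ℚ) * p = 1 := by
      have : (y : ℚ) = (p : ℚ)⁻¹ := hy
      rw [this, inv_mul_cancel₀ hp0]
    have h7 : y * p = 1 := by exact_mod_cast h6
    have h8 : (p : ℤ) ∣ 1 := ⟨y, by rw [mul_comm]; exact h7.symm⟩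
    have h9 : p ∣ 1 := by exact_mod_cast h8
    exact hp.one_lt.ne' (Nat.dvd_one.1 h9)
  obtain ⟨V, -, hV⟩ := Subring.exists_le_valuationSubring_of_isIntegrallyClosedIn h1
  refine ⟨V, ?_⟩
  rw [← ValuationSubring.valuation_le_one_iff, not_le, map_inv₀] at hV
  exact (one_lt_inv₀ (zero_lt_iff.mpr ((Valuation.ne_zero_iff _).mpr
    (by exact_mod_cast hp.ne_zero)))).mp hV

/-- division by a polynomial with constant term one preserves integrality -/
theorem coeff_mem {K : Type} [Field K] (V : ValuationSubring K) (q r : K[X])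
    (h0 : q.coeff 0 = 1) (hq : ∀ n, q.coeff n ∈ V) (hm : ∀ n, (q * r).coeff n ∈ V) :
    ∀ n, r.coeff n ∈ V := by
  classical
  intro n
  induction n using Nat.strong_induction_on with
  | _ n ih =>
    have h := hm n
    rw [coeff_mul, ← Finset.add_sum_erase _ _ (a := ((0, n) : ℕ × ℕ)) (by simp), h0, one_mul] at h
    have h2 : ∑ x ∈ (Finset.HasAntidiagonal.antidiagonal n).erase (0, n), q.coeff x.1 * r.coeff x.2 ∈ V := by
      apply V.toSubring.sum_mem
      intro x hx
      rw [Finset.mem_erase, Finset.HasAntidiagonal.mem_antidiagonal] at hx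
      refine V.mul_mem _ _ (hq _) (ih _ ?_)
      have : x.1 ≠ 0 := by
        intro h3
        apply hx.1
        ext
        · exact h3
        · simp only
          omega
      omega
    have := V.sub_mem h h2
    rwa [add_sub_cancel_right] at this

end Pool.Agent.W350.Shap
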