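import Pool.Agent.W350.Shap.Core

open Polynomial

namespace Pool.Agent.W350.Shap

/-- a polynomial with coefficients in a valuation subring lifts -/
theorem lift_poly (V : ValuationSubring ℂ) (f : ℂ[X]) (hf : ∀ n, f.coeff n ∈ V) :
    ∃ g : V[X], g.map (algebraMap V ℂ) = f := by
  have : f ∈ lifts (algebraMap V ℂ) := by
    rw [lifts_iff_coeff_lifts]
    intro n
    exact ⟨⟨f.coeff n, hf n⟩, rfl⟩
  obtain ⟨g, hg⟩ := (mem_lifts _).1 this
  exact ⟨g, hg⟩

/-- the statement over the complex numbers, for polynomials with constant term one -/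
theorem poly (p : ℕ) (hp : p.Prime) (k d c : ℕ)
    (hc : 0 < c) (hdc : p ∣ d + c) (hk : k < p) (q : Fin k → ℂ[X]) (h0 : ∀ i, (q i).coeff 0 = 1)
    (M : ℂ[X]) (hM : M ≠ 0) (hdvd : ∀ i, q i ∣ M) (hdeg : c * M.natDegree < p)
    (hsum : ∑ i, q i ^ d = (k : ℂ[X])) : ∀ i, q i = 1 := by
  classical
  by_contra hcon
  push Not at hcon
  obtain ⟨i₀, hi₀⟩ := hcon
  obtain ⟨V, hV⟩ := exists_over p hp
  set v := V.valuation with hv
  -- the scaling
  have hroot : ∀ x : Fin k × ℕ, ∃ μ : ℂ, μ ^ (x.2 + 1) = (q x.1).coeff (x.2 + 1) := fun x =>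
    IsAlgClosed.exists_pow_nat_eq _ (Nat.succ_pos _)
  choose μ hμ using hroot
  set S : Finset (Fin k × ℕ) := (Finset.univ ×ˢ Finset.range (Finset.univ.sup fun i => (q i).natDegree + 1)) with hS
  have hSne : S.Nonempty := by
    refine ⟨(i₀, 0), ?_⟩
    rw [hS, Finset.mem_product]
    refine ⟨Finset.mem_univ _, ?_⟩
    rw [Finset.mem_range]
    have : (q i₀).natDegree + 1 ≤ Finset.univ.sup fun i => (q i).natDegree + 1 :=
      Finset.le_sup (f := fun i => (q i).natDegree + 1) (Finset.mem_univ i₀)
    omega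
  obtain ⟨x, hxS, hx⟩ := Finset.exists_max_image S (fun y => v (μ y)) hSne
  have hall : ∀ y : Fin k × ℕ, v (μ y) ≤ v (μ x) := by
    intro y
    by_cases hy : y ∈ S
    · exact hx y hy
    · have : (q y.1).coeff (y.2 + 1) = 0 := by
        apply coeff_eq_zero_of_natDegree_lt
        by_contra h
        apply hy
        rw [hS, Finset.mem_product]
        refine ⟨Finset.mem_univ _, ?_⟩
        rw [Finset.mem_range]
        have : (q y.1).natDegree + 1 ≤ Finset.univ.sup fun i => (q i).natDegree + 1 :=
          Finset.le_sup (f := fun i => (q i).natDegree + 1) (Finset.mem_univ y.1)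
        omega
      have h1 := hμ y
      rw [this] at h1
      rw [pow_eq_zero_iff (Nat.succ_ne_zero _)] at h1
      rw [h1, map_zero]
      exact zero_le
  have hx0 : μ x ≠ 0 := by
    intro h
    apply hi₀
    ext n
    rcases n with _ | n
    · rw [h0, coeff_one_zero]
    · have h1 := hall (i₀, n)
      rw [h, map_zero, le_zero_iff, Valuation.zero_iff] at h1
      have h2 := hμ (i₀, n)
      rw [h1, zero_pow (Nat.succ_ne_zero _)] at h2
      rw [← h2, coeff_one, if_neg (Nat.succ_ne_zero _)]
  have hvx : v (μ x) ≠ 0 := (Valuation.ne_zero_iff _).2 hx0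
  set l : ℂ := (μ x)⁻¹ with hl
  set q' : Fin k → ℂ[X] := fun i => (q i).comp (C l * X) with hq'
  have hco : ∀ i n, (q' i).coeff (n + 1) = (μ (i, n) * l) ^ (n + 1) := by
    intro i n
    rw [hq']
    simp only
    rw [comp_C_mul_X_coeff, mul_pow, hμ]
  have hco0 : ∀ i, (q' i).coeff 0 = 1 := by
    intro i
    rw [hq']
    simp only
    rw [comp_C_mul_X_coeff, pow_zero, mul_one, h0]
  have hq'V : ∀ i n, (q' i).coeff n ∈ V := by
    intro i n
    rcases n with _ | n
    · rw [hco0]
      exact V.one_mem
    · rw [hco]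
      apply V.toSubring.pow_mem
      change _ ∈ V
      rw [← ValuationSubring.valuation_le_one_iff, map_mul, hl, map_inv₀]
      exact mul_inv_le_one_of_le₀ (hall (i, n)) zero_le
  -- the common multiple
  set M' : ℂ[X] := M.comp (C l * X) with hM'
  have hl0 : l ≠ 0 := inv_ne_zero hx0
  have hM'0 : M' ≠ 0 := by
    intro h
    apply hM
    ext n
    have h1 := congrArg (fun f => f.coeff n) h
    simp only [hM', comp_C_mul_X_coeff, coeff_zero] at h1
    rw [coeff_zero]
    exact (mul_eq_zero.1 h1).resolve_right (pow_ne_zero _ hl0)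
  have hM'deg : M'.natDegree ≤ M.natDegree := by
    refine natDegree_comp_le.trans ?_
    have : (C l * X : ℂ[X]).natDegree ≤ 1 := (natDegree_C_mul_le _ _).trans natDegree_X_le
    calc M.natDegree * (C l * X : ℂ[X]).natDegree ≤ M.natDegree * 1 := Nat.mul_le_mul_left _ this
      _ = M.natDegree := mul_one _
  obtain ⟨n₀, hn₀S, hn₀⟩ := Finset.exists_max_image M'.support (fun n => v (M'.coeff n))
    (Finset.nonempty_iff_ne_empty.2 (fun h => hM'0 (support_eq_empty.1 h)))
  set m : ℂ := M'.coeff n₀ with hm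
  have hm0 : m ≠ 0 := mem_support_iff.1 hn₀S
  have hmall : ∀ n, v (M'.coeff n) ≤ v m := by
    intro n
    by_cases h : n ∈ M'.support
    · exact hn₀ n h
    · rw [notMem_support_iff.1 h, map_zero]
      exact zero_le
  set M'' : ℂ[X] := C m⁻¹ * M' with hM''
  have hM''V : ∀ n, M''.coeff n ∈ V := by
    intro n
    rw [hM'', coeff_C_mul, ← ValuationSubring.valuation_le_one_iff, map_mul, map_inv₀, mul_comm]
    exact mul_inv_le_one_of_le₀ (hmall n) zero_le
  have hM''1 : M''.coeff n₀ = 1 := by
    rw [hM'', coeff_C_mul, ← hm, inv_mul_cancel₀ hm0]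
  have hdvd' : ∀ i, ∃ r, M'' = q' i * r := by
    intro i
    obtain ⟨r, hr⟩ := hdvd i
    refine ⟨C m⁻¹ * r.comp (C l * X), ?_⟩
    rw [hM'', hM', hr, mul_comp, hq']
    simp only
    ring
  choose r hr using hdvd'
  have hrV : ∀ i n, (r i).coeff n ∈ V := fun i =>
    coeff_mem V (q' i) (r i) (hco0 i) (hq'V i) (fun n => by rw [← hr i]; exact hM''V n)
  -- lifting
  choose Q hQ using fun i => lift_poly V (q' i) (hq'V i)
  choose R hR using fun i => lift_poly V (r i) (hrV i)
  obtain ⟨MM, hMM⟩ := lift_poly V M'' hM''V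
  have hinj : Function.Injective (Polynomial.map (algebraMap V ℂ)) :=
    Polynomial.map_injective _ (fun a b h => Subtype.ext h)
  have hMMQ : ∀ i, MM = Q i * R i := by
    intro i
    apply hinj
    rw [Polynomial.map_mul, hMM, hQ, hR, hr i]
  have hsumQ : ∑ i, Q i ^ d = (k : V[X]) := by
    apply hinj
    rw [Polynomial.map_sum, Polynomial.map_natCast]
    simp only [Polynomial.map_pow, hQ]
    rw [hq']
    simp only
    have := congrArg (fun f => f.comp (C l * X)) hsum
    simp only [natCast_comp] at this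
    rw [← this, Polynomial.sum_comp]
    exact Finset.sum_congr rfl (fun i _ => (pow_comp _ _ _).symm)
  have hQ0 : ∀ i, (Q i).coeff 0 = 1 := by
    intro i
    apply Subtype.ext
    have h1 := congrArg (fun f => f.coeff 0) (hQ i)
    simp only [coeff_map] at h1
    rw [hco0] at h1
    exact h1
  have hMMn : MM.coeff n₀ = 1 := by
    apply Subtype.ext
    have h1 := congrArg (fun f => f.coeff n₀) hMM
    simp only [coeff_map] at h1
    rw [hM''1] at h1
    exact h1
  -- reduction
  let F := IsLocalRing.ResidueField V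
  let ρ : V →+* F := IsLocalRing.residue V
  have : Fact p.Prime := ⟨hp⟩
  have : CharP F p := by
    have h1 : (p : F) = 0 := by
      have h2 : ρ (p : V) = 0 := by
        change IsLocalRing.residue V (p : V) = 0
        rw [IsLocalRing.residue_eq_zero_iff]
        rw [ValuationSubring.valuation_lt_one_iff]
        exact_mod_cast hV
      rw [map_natCast] at h2
      exact h2
    have h3 := CharP.exists F
    obtain ⟨c', hc'⟩ := h3
    have h4 : c' ∣ p := (CharP.cast_eq_zero_iff F c' p).1 h1
    rcases (Nat.dvd_prime hp).1 h4 with h5 | h5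
    · exfalso
      subst h5
      exact CharP.char_ne_one F 1 rfl
    · rw [← h5]
      exact hc'
  have hfin := charp (F := F) p k d c hc hdc hk (fun i => (Q i).map ρ)
    (fun i => by rw [coeff_map, hQ0, map_one]) (MM.map ρ)
    (by
      intro h
      have h1 := congrArg (fun f => f.coeff n₀) h
      simp only [coeff_map, hMMn, map_one, coeff_zero] at h1
      exact one_ne_zero h1)
    (fun i => ⟨(R i).map ρ, by rw [← Polynomial.map_mul, ← hMMQ i]⟩)
    (by
      refine lt_of_le_of_lt (Nat.mul_le_mul_left _ ?_) hdeg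
      refine (natDegree_map_le).trans ?_
      have h1 : MM.natDegree = M''.natDegree := by
        rw [← hMM]
        exact (natDegree_map_eq_of_injective (fun a b h => Subtype.ext h) MM).symm
      rw [h1, hM'']
      exact (natDegree_C_mul_le _ _).trans hM'deg)
    (by
      have h1 := congrArg (Polynomial.map ρ) hsumQ
      rw [Polynomial.map_sum, Polynomial.map_natCast] at h1
      simpa only [Polynomial.map_pow] using h1)
  have h1 := hfin x.1
  have h2 := congrArg (fun f => f.coeff (x.2 + 1)) h1
  simp only [coeff_map, coeff_one, Nat.succ_ne_zero, if_false] at h2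
  have h3 : ((Q x.1).coeff (x.2 + 1) : ℂ) = 1 := by
    have h4 := congrArg (fun f => f.coeff (x.2 + 1)) (hQ x.1)
    simp only [coeff_map] at h4
    rw [hco] at h4
    have h5 : μ (x.1, x.2) * l = 1 := by
      rw [hl]
      exact mul_inv_cancel₀ hx0
    rw [h5, one_pow] at h4
    exact h4
  have h6 : (Q x.1).coeff (x.2 + 1) = 1 := Subtype.ext h3
  rw [h6, map_one] at h2
  exact one_ne_zero h2

end Pool.Agent.W350.Shap
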